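import Pool.Agent.Q147.PK.Final

/-!
# Orders of pseudo `k`-regular graphs: the set of orders is not an interval

There is a pseudo `16`-regular graph on `19` vertices, but none on `20` vertices.
-/

set_option autoImplicit false

namespace Pool.Agent.Results.MP_1ed35b_co.SixteenMissesTwenty

open Finset

open scoped Classical in
/-- The average `2`-degree of a vertex: the mean degree of its neighbours. -/
noncomputable def avgDeg {n : ℕ} (G : SimpleGraph (Fin n)) (i : Fin n) : ℚ :=
  (∑ j ∈ G.neighborFinset i, (G.degree j : ℚ)) / (G.degree i : ℚ)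

open scoped Classical in
/-- A connected graph with at least two vertices is pseudo `k`-regular if the average
`2`-degree of every vertex is `k`, while the degrees are not all equal. -/
def IsPseudoRegular {n : ℕ} (G : SimpleGraph (Fin n)) (k : ℕ) : Prop :=
  G.Connected ∧ 2 ≤ n ∧ (∀ i, avgDeg G i = (k : ℚ)) ∧ ∃ i j, G.degree i ≠ G.degree j

/-- There is a pseudo `k`-regular graph on exactly `n` vertices. -/
def HasOrder (k n : ℕ) : Prop := ∃ G : SimpleGraph (Fin n), IsPseudoRegular G k

/-- `N(k)`: the least number of vertices of a pseudo `k`-regular graph. -/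
noncomputable def N (k : ℕ) : ℕ := sInf {n | HasOrder k n}

/-! ### The graph on 19 vertices -/

/-- the edges of the complement -/
def B : List (ℕ × ℕ) :=
  [(0, 1), (0, 2), (0, 3), (0, 4), (0, 5), (1, 6), (1, 7), (1, 8), (1, 9),
   (10, 11), (10, 12), (10, 13), (10, 14), (11, 12), (13, 14),
   (15, 16), (15, 17), (15, 18), (16, 17), (16, 18)]

/-- the adjacency of the graph on 19 vertices -/
def adj (i j : Fin 19) : Bool :=
  !(i == j) && !(B.contains (i.val, j.val)) && !(B.contains (j.val, i.val))

theorem adj_symm : ∀ i j, adj i j = true → adj j i = true := by decide +kernel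

theorem adj_irr : ∀ i, ¬ adj i i = true := by decide +kernel

/-- the graph on 19 vertices -/
def G19 : SimpleGraph (Fin 19) where
  Adj i j := adj i j = true
  symm := ⟨adj_symm⟩
  loopless := ⟨adj_irr⟩

/-- the degrees of `G19` -/
def dg : Fin 19 → ℕ := ![13, 13, 17, 17, 17, 17, 17, 17, 17, 17, 14, 16, 16, 16, 16, 15, 15, 16, 16]

theorem deg19 : ∀ i, (univ.filter (fun j => adj i j = true)).card = dg i := by decide +kernel

theorem sum19 : ∀ i, ∑ j ∈ univ.filter (fun j => adj i j = true), dg j = 16 * dg i := by
  decide +kernel

theorem dist19 : ∀ i j, i = j ∨ ∃ k, (i = k ∨ adj i k = true) ∧ adj k j = true := by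
  decide +kernel

theorem dg_ne : ∀ i, dg i ≠ 0 := by decide

theorem dg_02 : dg 0 ≠ dg 2 := by decide

open scoped Classical in
theorem nbr19 (i : Fin 19) : G19.neighborFinset i = univ.filter (fun j => adj i j = true) := by
  ext j
  rw [SimpleGraph.mem_neighborFinset, mem_filter]
  exact ⟨fun h => ⟨mem_univ _, h⟩, fun h => h.2⟩

open scoped Classical in
theorem degree19 (i : Fin 19) : G19.degree i = dg i := by
  rw [← SimpleGraph.card_neighborFinset_eq_degree, nbr19, deg19]

open scoped Classical in
theorem hasOrder_19 : HasOrder 16 19 := by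
  refine ⟨G19, ?_, by norm_num, ?_, 0, 2, ?_⟩
  · rw [SimpleGraph.connected_iff]
    refine ⟨fun i j => ?_, inferInstance⟩
    rcases dist19 i j with rfl | ⟨k, h1 | h1, h2⟩
    · exact SimpleGraph.Reachable.refl _
    · rw [h1]
      exact SimpleGraph.Adj.reachable (G := G19) h2
    · exact (SimpleGraph.Adj.reachable (G := G19) h1).trans
        (SimpleGraph.Adj.reachable (G := G19) h2)
  · intro i
    unfold avgDeg
    rw [nbr19, degree19, Finset.sum_congr rfl (fun j _ => by rw [degree19 j])]
    have h2 : (∑ j ∈ univ.filter (fun j => adj i j = true), (dg j : ℚ)) = 16 * (dg i : ℚ) := by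
      exact_mod_cast sum19 i
    have h3 : (dg i : ℚ) ≠ 0 := by exact_mod_cast dg_ne i
    rw [h2, mul_div_assoc, div_self h3]
    norm_num
  · rw [degree19, degree19]
    exact dg_02

/-! ### No graph on 20 vertices -/

open scoped Classical in
theorem not_hasOrder_20 : ¬ HasOrder 16 20 := by
  rintro ⟨G, hconn, _, hm, i₀, j₀, hij⟩
  have hpos : ∀ v, 1 ≤ G.degree v := by
    intro v
    exact hconn.preconnected.degree_pos_of_nontrivial v
  have hsum : ∀ v, ∑ w ∈ G.neighborFinset v, (G.degree w : ℤ) = 16 * G.degree v := by
    intro v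
    have h1 := hm v
    unfold avgDeg at h1
    have h2 : (G.degree v : ℚ) ≠ 0 := by
      have := hpos v
      positivity
    rw [div_eq_iff h2] at h1
    exact_mod_cast h1
  set D : ℤ := ∑ v, (G.degree v : ℤ) with hD
  have key : ∀ v : Fin 20, ∀ F : Fin 20 → ℤ,
      ∑ w ∈ univ.filter (fun w => w ≠ v ∧ ¬ G.Adj v w), F w =
      ∑ w, F w - F v - ∑ w ∈ G.neighborFinset v, F w := by
    intro v F
    have h1 := Finset.sum_filter_add_sum_filter_not univ (fun w => w ≠ v ∧ ¬ G.Adj v w) F
    have h2 : univ.filter (fun w => ¬ (w ≠ v ∧ ¬ G.Adj v w)) = insert v (G.neighborFinset v) := by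
      ext w
      simp only [mem_filter, mem_univ, true_and, mem_insert, SimpleGraph.mem_neighborFinset]
      tauto
    rw [h2, Finset.sum_insert (by simp)] at h1
    linarith
  have key1 : ∀ v : Fin 20, ((univ.filter (fun w => w ≠ v ∧ ¬ G.Adj v w)).card : ℤ) =
      19 - G.degree v := by
    intro v
    have h := key v (fun _ => 1)
    simp only [Finset.sum_const, nsmul_eq_mul, mul_one, Finset.card_univ, Fintype.card_fin,
      SimpleGraph.card_neighborFinset_eq_degree] at h
    rw [h]
    push_cast
    ring
  let c : Pool.Agent.Q147.PK.Cfg (Fin 20) :=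
    { N := fun v => univ.filter (fun w => w ≠ v ∧ ¬ G.Adj v w)
      g := fun v => 17 - G.degree v
      S := 323 - D
      symm := by
        intro v w h
        rw [mem_filter] at h ⊢
        exact ⟨mem_univ _, h.2.1.symm, fun h' => h.2.2 h'.symm⟩
      irr := by
        intro v h
        rw [mem_filter] at h
        exact h.2.1 rfl
      card := by
        intro v
        rw [key1]
        ring
      sum := by
        intro v
        rw [Finset.sum_sub_distrib, key v (fun w => (G.degree w : ℤ)), hsum, Finset.sum_const,
          nsmul_eq_mul, key1, ← hD]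
        ring
      tot := by
        rw [Finset.sum_sub_distrib, ← hD, Finset.sum_const, Finset.card_univ, Fintype.card_fin]
        ring
      cV := Fintype.card_fin 20
      le := by
        intro v
        have := hpos v
        omega
      ne := by
        by_contra hcon
        push Not at hcon
        have h1 := hcon i₀
        have h2 := hcon j₀
        apply hij
        omega }
  exact c.no_cfg

/-- **The orders of the pseudo `16`-regular graphs do not form an interval**: there is a pseudo
`16`-regular graph on `19` vertices and none on `20` vertices; so it is not true that for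
every `k ≥ 5` and every `n ≥ N(k)` there is a pseudo `k`-regular graph on `n` vertices. -/
theorem result :
    (HasOrder 16 19 ∧ ¬ HasOrder 16 20) ∧
    ¬ (∀ k : ℕ, 5 ≤ k → ∀ n : ℕ, N k ≤ n → HasOrder k n) := by
  refine ⟨⟨hasOrder_19, not_hasOrder_20⟩, fun h => ?_⟩
  have h1 : N 16 ≤ 19 := Nat.sInf_le hasOrder_19
  exact not_hasOrder_20 (h 16 (by norm_num) 20 (by omega))

end Pool.Agent.Results.MP_1ed35b_co.SixteenMissesTwenty
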